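import Pool.Agent.Q161.ESJ.Stm1

/-! # Project ESJ (helper161), job J3E: primes not dividing the twist
(adapted from `Pool/Agent/Q14/ESG/J3e.lean`) -/

set_option autoImplicit false

namespace Pool.Agent.Q151.ESJ

open Polynomial NumberField IsDedekindDomain Pool.Agent.Q161.ESJ

section

variable {l : ℕ} [Fact l.Prime]

theorem norm_aut (τ : PadicAlgCl l ≃ₐ[ℚ_[l]] PadicAlgCl l) (x : PadicAlgCl l) : ‖τ x‖ = ‖x‖ :=
  (spectralNorm_eq_of_equiv τ x).symm

theorem norm_sub_le' (x y : PadicAlgCl l) : ‖x - y‖ ≤ max ‖x‖ ‖y‖ := by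
  have h := IsUltrametricDist.norm_add_le_max x (-y)
  rwa [norm_neg, ← sub_eq_add_neg] at h

theorem norm_sub_eq {x y : PadicAlgCl l} (h : ‖y‖ < ‖x‖) : ‖x - y‖ = ‖x‖ := by
  have h1 : ‖x‖ ≠ ‖-y‖ := by
    rw [norm_neg]
    exact h.ne'
  rw [sub_eq_add_neg, IsUltrametricDist.norm_add_eq_max_of_norm_ne_norm h1, norm_neg, max_eq_left h.le]

variable {E : IntermediateField ℚ_[l] (PadicAlgCl l)} {f : (PadicAlgCl l)[X]}

/-- a polynomial with coefficients in `E` is fixed by the automorphisms over `E` -/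
theorem map_fx {p : (PadicAlgCl l)[X]} (hp : Fx E p) {τ : PadicAlgCl l ≃ₐ[ℚ_[l]] PadicAlgCl l}
    (hτ : Ga E τ) : p.map (τ : PadicAlgCl l →+* PadicAlgCl l) = p := by
  ext i
  rw [coeff_map]
  exact hp τ hτ i

theorem eval_fx {p : (PadicAlgCl l)[X]} (hp : Fx E p) {τ : PadicAlgCl l ≃ₐ[ℚ_[l]] PadicAlgCl l}
    (hτ : Ga E τ) (x : PadicAlgCl l) : p.eval (τ x) = τ (p.eval x) := by
  have h1 := Polynomial.eval₂_at_apply (p := p) (τ : PadicAlgCl l →+* PadicAlgCl l) x
  rw [← eval_map, map_fx hp hτ] at h1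
  exact h1

theorem roots_fx {p : (PadicAlgCl l)[X]} (hp : Fx E p) {τ : PadicAlgCl l ≃ₐ[ℚ_[l]] PadicAlgCl l}
    (hτ : Ga E τ) : p.roots.map τ = p.roots := by
  have h1 := (IsAlgClosed.splits p).roots_map (τ : PadicAlgCl l →+* PadicAlgCl l)
  rw [map_fx hp hτ] at h1
  exact h1.symm

theorem mem_rts (hf : f.Monic) {x : PadicAlgCl l} : x ∈ rts f ↔ f.IsRoot x := by
  classical
  unfold rts
  rw [Multiset.mem_toFinset, mem_roots]
  exact hf.ne_zero

theorem aut_rts (hf : Gl E f) {τ : PadicAlgCl l ≃ₐ[ℚ_[l]] PadicAlgCl l} (hτ : Ga E τ) {x : PadicAlgCl l}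
    (hx : x ∈ rts f) : τ x ∈ rts f := by
  rw [mem_rts hf.monic, IsRoot.def] at hx ⊢
  rw [eval_fx hf.fx hτ, hx, map_zero]

theorem pol_prod (hf : Gl E f) (z : PadicAlgCl l) : f.eval z = ∏ x ∈ rts f, (z - x) := by
  classical
  rw [(IsAlgClosed.splits f).eval_eq_prod_roots_of_monic hf.monic]
  have hnd := nodup_roots hf.sep
  unfold rts
  rw [Finset.prod, Multiset.toFinset_val, Multiset.dedup_eq_self.2 hnd]

theorem card_rts (hf : Gl E f) : (rts f).card = f.natDegree := by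
  classical
  unfold rts
  rw [Multiset.toFinset_card_of_nodup (nodup_roots hf.sep),
    ← (IsAlgClosed.splits f).natDegree_eq_card_roots]

/-- the values of the twist -/
theorem twist_prod (hf : Gl E f) {D : PadicAlgCl l} (hD : D ≠ 0) (z : PadicAlgCl l) :
    (f.scaleRoots D).eval z = ∏ x ∈ rts f, (z - D * x) := by
  have h2 : z = D * (z / D) := by field_simp
  have h3 := scaleRoots_eval_mul f (z / D) D
  rw [← h2] at h3
  rw [h3, pol_prod hf, ← card_rts hf, ← Finset.prod_const, ← Finset.prod_mul_distrib]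
  refine Finset.prod_congr rfl fun x _ => ?_
  field_simp

end

theorem j3e : S_J3E := by
  classical
  intro l _ hl E f hf D hDE hD1 u v hfu hfv hu huv hcop
  have hD0 : D ≠ 0 := by
    intro h
    rw [h, norm_zero] at hD1
    exact zero_ne_one hD1
  obtain ⟨g, hg⟩ := hf.odd
  have haev : ∀ ρ : PadicAlgCl l, (f.scaleRoots D).eval ρ = ∏ x ∈ rts f, (ρ - D * x) :=
    fun ρ => twist_prod hf hD0 ρ
  have hval : ∀ ρ : PadicAlgCl l, u.eval ρ = 0 → (v.eval ρ) ^ 2 = ∏ x ∈ rts f, (ρ - D * x) := by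
    intro ρ hρ
    obtain ⟨w, hw⟩ := huv
    have h1 := congrArg (Polynomial.eval ρ) hw
    rw [eval_sub, eval_mul, hρ, zero_mul, eval_pow, haev] at h1
    exact (sub_eq_zero.1 h1).symm
  have hne : ∀ ρ : PadicAlgCl l, u.eval ρ = 0 → v.eval ρ ≠ 0 := by
    intro ρ hρ h
    have h1 := hval ρ hρ
    rw [h, ← haev] at h1
    obtain ⟨a, b, hab⟩ := hcop
    have h2 := congrArg (Polynomial.eval ρ) hab
    rw [eval_add, eval_mul, eval_mul, hρ, ← h1, eval_one] at h2
    simp at h2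
  obtain ⟨a, ha⟩ : ∃ a : PadicAlgCl l → PadicAlgCl l → PadicAlgCl l, ∀ ρ x, a ρ x =
      if 1 < ‖ρ‖ then v.eval ρ / ρ ^ g else if ‖ρ - D * x‖ < 1 then v.eval ρ else 1 :=
    ⟨_, fun _ _ => rfl⟩
  have hDx : ∀ x ∈ rts f, ‖D * x‖ ≤ 1 := by
    intro x hx
    rw [norm_mul, hD1, one_mul]
    exact hf.int x hx
  have hnorm : ∀ ρ : PadicAlgCl l, u.eval ρ = 0 → ∀ x ∈ rts f,
      a ρ x ≠ 0 ∧ ‖a ρ x‖ ^ 2 = ‖ρ - D * x‖ := by
    intro ρ hρ x hx
    have hv := hval ρ hρ
    have hv2 : ‖v.eval ρ‖ ^ 2 = ∏ x ∈ rts f, ‖ρ - D * x‖ := by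
      rw [← norm_pow, hv, norm_prod]
    rw [ha]
    split_ifs with h1 h2
    · have hρ0 : ρ ≠ 0 := by
        rintro rfl
        rw [norm_zero] at h1
        linarith
      refine ⟨div_ne_zero (hne ρ hρ) (pow_ne_zero _ hρ0), ?_⟩
      have h3 : ∀ y ∈ rts f, ‖ρ - D * y‖ = ‖ρ‖ := fun y hy =>
        norm_sub_eq (lt_of_le_of_lt (hDx y hy) h1)
      rw [Finset.prod_congr rfl h3, Finset.prod_const, card_rts hf, hg] at hv2
      have hρn : ‖ρ‖ ≠ 0 := norm_ne_zero_iff.2 hρ0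
      rw [norm_div, div_pow, hv2, h3 x hx, norm_pow, ← pow_mul, pow_succ, mul_comm g 2]
      field_simp
    · refine ⟨hne ρ hρ, ?_⟩
      rw [hv2, ← Finset.mul_prod_erase _ _ hx]
      have h3 : ∀ y ∈ (rts f).erase x, ‖ρ - D * y‖ = 1 := by
        intro y hy
        rw [Finset.mem_erase] at hy
        have h4 : ‖D * (y - x)‖ = 1 := by
          rw [norm_mul, hD1, one_mul]
          exact hf.dist y hy.2 x hx hy.1
        have h5 : ρ - D * y = -(D * (y - x) - (ρ - D * x)) := by ring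
        rw [h5, norm_neg, norm_sub_eq (by rw [h4]; exact h2), h4]
      rw [Finset.prod_congr rfl h3, Finset.prod_const_one, mul_one]
    · refine ⟨one_ne_zero, ?_⟩
      rw [norm_one, one_pow]
      refine le_antisymm (not_lt.1 h2) ?_
      exact (norm_sub_le' _ _).trans (max_le (not_lt.1 h1) (hDx x hx))
  have haroot : ∀ ρ ∈ u.roots, u.eval ρ = 0 := fun ρ hρ => (mem_roots'.1 hρ).2
  obtain ⟨s, hs⟩ : ∃ s : PadicAlgCl l → PadicAlgCl l, ∀ x, s x =
      ((u.roots).map fun ρ => a ρ x).prod := ⟨_, fun _ => rfl⟩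
  refine ⟨fun x => (-1) ^ u.natDegree * u.eval (D * x) / s x ^ 2, s, ?_, ?_⟩
  · intro τ hτ x _
    have hroots : (u.roots).map τ = u.roots := roots_fx hfu hτ
    have hτD : τ D = D := hτ D hDE
    have hav : ∀ ρ : PadicAlgCl l, a (τ ρ) (τ x) = τ (a ρ x) := by
      intro ρ
      rw [ha, ha, norm_aut]
      have h1 : τ ρ - D * τ x = τ (ρ - D * x) := by
        rw [map_sub, map_mul, hτD]
      rw [h1, norm_aut, eval_fx hfv hτ]
      split_ifs
      · rw [map_div₀, map_pow]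
      · rfl
      · rw [map_one]
    rw [hs, hs, map_multiset_prod, Multiset.map_map]
    rw [← hroots, Multiset.map_map, hroots]
    refine congrArg Multiset.prod (Multiset.map_congr rfl fun ρ _ => ?_)
    exact hav ρ
  · intro x hx
    have hs0 : s x ≠ 0 := by
      rw [hs]
      refine Multiset.prod_ne_zero ?_
      intro h0
      rw [Multiset.mem_map] at h0
      obtain ⟨ρ, hρ, h1⟩ := h0
      exact (hnorm ρ (haroot ρ hρ) x hx).1 h1
    refine ⟨?_, hs0, ?_⟩
    · have h1 : ‖(-1) ^ u.natDegree * u.eval (D * x)‖ = ‖s x‖ ^ 2 := by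
        rw [norm_mul, norm_pow, norm_neg, norm_one, one_pow, one_mul,
          (IsAlgClosed.splits u).eval_eq_prod_roots_of_monic hu, hs]
        have h2 : ∀ (m : Multiset (PadicAlgCl l)), ‖m.prod‖ = (m.map fun z => ‖z‖).prod := by
          intro m
          exact map_multiset_prod (normHom : PadicAlgCl l →*₀ ℝ) m
        rw [h2, h2, Multiset.map_map, Multiset.map_map, ← Multiset.prod_map_pow]
        refine congrArg Multiset.prod (Multiset.map_congr rfl fun ρ hρ => ?_)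
        simp only [Function.comp]
        rw [(hnorm ρ (haroot ρ hρ) x hx).2, norm_sub_rev]
      rw [norm_div, h1, norm_pow, div_self]
      exact pow_ne_zero _ (norm_ne_zero_iff.2 hs0)
    · field_simp

end Pool.Agent.Q151.ESJ
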