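import Pool.Agent.Q161.ESJ.Stm1

/-! # Project ESJ (helper161), job SHAJ (adapted from `Pool/Agent/Q151/ESG/{Base, Shaj}.lean`) -/

set_option autoImplicit false
set_option linter.all false

namespace Pool.Agent.Q151.ESJ

open Polynomial NumberField IsDedekindDomain
open Pool.Agent.Q161.ESJ
open Pool.Agent.Y723.HJ (CR OddM HF nm cl val del)

section

variable {F : Type} [Field F]

theorem pol_monic (H : HP F) (E : Type) [Field E] [Algebra F E] : (pol H E).Monic := H.monic.map _

theorem pol_ne (H : HP F) (E : Type) [Field E] [Algebra F E] : pol H E ≠ 0 := (pol_monic H E).ne_zero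

variable {H : HP F} {L : Type} [Field L] [Algebra F L] {θ : L} (hS : SetF H L θ)

include hS

theorem setF_fin : FiniteDimensional F L := by
  refine Module.finite_of_finrank_pos ?_
  rw [hS.deg]
  exact H.odd.pos

theorem minpoly_eq : minpoly F θ = H.pol :=
  (minpoly.eq_of_irreducible_of_monic hS.irr hS.root H.monic).symm

theorem hf_pol [CharZero F] (E : Type) [Field E] [Algebra F E] : HF (pol H E) where
  monic := pol_monic _ _
  odd := by
    unfold pol
    rw [H.monic.natDegree_map]
    exact H.odd
  sep := hS.irr.separable.map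
  two := by
    haveI : CharZero E := charZero_of_injective_algebraMap (algebraMap F E).injective
    exact two_ne_zero

theorem theta_top : Algebra.adjoin F {θ} = ⊤ := by
  haveI := setF_fin hS
  have h1 : IsIntegral F θ := Algebra.IsIntegral.isIntegral θ
  have h2 : IntermediateField.adjoin F {θ} = ⊤ := by
    apply IntermediateField.eq_of_le_of_finrank_eq le_top
    rw [IntermediateField.adjoin.finrank h1, minpoly_eq hS, IntermediateField.finrank_top', hS.deg]
  have h3 := IntermediateField.adjoin_simple_toSubalgebra_of_isAlgebraic (h1.isAlgebraic)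
  rw [h2] at h3
  exact h3.symm

theorem theta_surj (x : L) : ∃ d : F[X], aeval θ d = x := by
  have h : x ∈ Algebra.adjoin F {θ} := by rw [theta_top hS]; trivial
  rw [Algebra.adjoin_singleton_eq_range_aeval] at h
  exact h

end

theorem shaj (hKD : S_KDJ) (hKI : S_KIJ) (hKL : S_KLJ) : S_SHAJ := by
  intro F _ _ H L _ _ θ hS
  haveI : HF (pol H (AlgebraicClosure F)) := hf_pol hS _
  haveI : FiniteDimensional F L := setF_fin hS
  have hex : ∀ x : Sel2J H, ∃ (γ : (L →ₐ[F] AlgebraicClosure F) → AlgebraicClosure F) (δ : L),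
      KDJ H θ (Quotient.out x : selJ H).1 γ δ := by
    intro x
    exact hKD F H L θ hS _ (Quotient.out x).2.1.1 (Quotient.out x).2.2
  choose γ δ hγ using hex
  have htor : ∀ (x : Sel2J H) (σ : GF F), (Quotient.out x : selJ H).1 σ +
      (Quotient.out x : selJ H).1 σ = 0 := fun x => (Quotient.out x).2.2
  refine ⟨δ, fun x => ⟨?_, ?_⟩, fun x y hxy => ?_⟩
  · intro h0
    obtain ⟨e⟩ : Nonempty (L →ₐ[F] AlgebraicClosure F) := ⟨IsAlgClosed.lift⟩
    have h1 := (hγ x).sq e
    rw [h0, map_zero] at h1
    exact (hγ x).ne e (pow_eq_zero_iff two_ne_zero |>.1 h1)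
  · obtain ⟨d, hd⟩ := theta_surj hS (δ x)
    refine ⟨d, hd, fun v => ?_⟩
    exact hKL F H L θ hS _ _ _ (htor x) (hγ x) (v.adicCompletion F) ((Quotient.out x).2.1.2.1 v) d hd
  · obtain ⟨T, hT, h1⟩ := hKI F H L θ hS _ _ _ _ _ _ (htor y) (htor x) (hγ y) (hγ x)
      (by rwa [mul_comm])
    have h2 : (QuotientAddGroup.mk (Quotient.out x : selJ H) : Sel2J H) =
        QuotientAddGroup.mk (Quotient.out y : selJ H) := by
      rw [QuotientAddGroup.eq, AddSubgroup.mem_addSubgroupOf]
      refine ⟨T, hT, fun σ => ?_⟩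
      have h5 : - (Quotient.out x : selJ H).1 σ +
          (Quotient.out y : selJ H).1 σ =
          (Quotient.out y : selJ H).1 σ - (Quotient.out x : selJ H).1 σ := by
        abel
      exact h5.trans (h1 σ)
    have h3 : (QuotientAddGroup.mk (Quotient.out x : selJ H) : Sel2J H) = x :=
      Quotient.out_eq x
    have h4 : (QuotientAddGroup.mk (Quotient.out y : selJ H) : Sel2J H) = y :=
      Quotient.out_eq y
    rw [← h3, ← h4, h2]

end Pool.Agent.Q151.ESJ
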